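import Pool.Agent.U136.DS.Stm

set_option autoImplicit false

namespace Pool.Agent.U394.DS

open MeasureTheory ProbabilityTheory Pool.Agent.N983.RT Pool.Agent.U136.DS

lemma nsq_nonneg' (k : Wv) : 0 ≤ nsq k := Finset.sum_nonneg fun _ _ => sq_nonneg _

lemma near_ne {lam : Wv → ℝ} {c₁ τ : ℝ} {k l m : Wv} (h : near lam c₁ τ k l m ≠ 0) :
    k ≠ 0 ∧ l ≠ 0 ∧ m ≠ 0 := by
  unfold near at h
  split_ifs at h with h1
  · exact ⟨h1.1, h1.2.1, h1.2.2.1⟩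
  · exact absurd rfl h

/-- (TLD) the tail of the number of near-resonant triads of `m` -/
theorem t_TLD : S_TLD := by
  classical
  intro hIND hPRB hESY D σ τ hD hσ hτ hτσ Ω _ μ _ Z e hZm hind he hdens R m hm s
  set r : Wv → ℝ := fun k => 2 * D * 2 ^ σ * (if k = 0 then 0 else nsq k ^ ((τ - σ) / 2)) with hr
  have hc0 : (0 : ℝ) ≤ 2 * D * 2 ^ σ := by positivity
  have hr0 : ∀ k, 0 ≤ r k := by
    intro k
    refine mul_nonneg hc0 ?_
    split_ifs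
    · exact le_refl 0
    · exact Real.rpow_nonneg (nsq_nonneg' k) _
  set G : Finset (Finset Wv) := ((cub R).powersetCard s).filter fun T =>
    (∀ k ∈ T, k ≠ 0 ∧ k ≠ -m) ∧ (∀ k ∈ T, (vr m k).card = 2 ∧ s(m, -m) ∉ vr m k) ∧
    ∀ k ∈ T, ∀ k' ∈ T, k ≠ k' → Disjoint (vr m k) (vr m k') with hG
  have hsub : {ω | 9 * s + 9 ≤
        ((cub R).filter fun k => near (rlam σ e Z ω) 1 τ k (-(k + m)) m ≠ 0).card} ⊆
      ⋃ T ∈ G, {ω | ∀ k ∈ T, near (rlam σ e Z ω) 1 τ k (-(k + m)) m ≠ 0} := by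
    intro ω hω
    have hA : ∀ k ∈ (cub R).filter fun k => near (rlam σ e Z ω) 1 τ k (-(k + m)) m ≠ 0,
        k ≠ 0 ∧ k ≠ -m := by
      intro k hk
      have h := near_ne (Finset.mem_filter.1 hk).2
      refine ⟨h.1, fun h2 => h.2.1 ?_⟩
      rw [h2]
      simp
    obtain ⟨T, hT, hTs, hT3, hTd⟩ := hIND _ m hm hA s hω
    simp only [Set.mem_iUnion]
    refine ⟨T, ?_, ?_⟩
    · rw [hG, Finset.mem_filter, Finset.mem_powersetCard]
      exact ⟨⟨fun k hk => (Finset.mem_filter.1 (hT hk)).1, hTs⟩, fun k hk => hA k (hT hk), hT3, hTd⟩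
    · intro k hk
      exact (Finset.mem_filter.1 (hT hk)).2
  have hE : ∀ T ∈ G, μ {ω | ∀ k ∈ T, near (rlam σ e Z ω) 1 τ k (-(k + m)) m ≠ 0} ≤
      ENNReal.ofReal (∏ k ∈ T, r k) := by
    intro T hT
    rw [hG, Finset.mem_filter] at hT
    obtain ⟨-, hT0, hT3, hTd⟩ := hT
    refine (hPRB D σ τ hD hσ hτ hτσ Ω μ Z e hZm hind he hdens m T hm hT0 hT3 hTd).trans ?_
    refine ENNReal.ofReal_le_ofReal (le_of_eq (Finset.prod_congr rfl fun k hk => ?_))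
    simp only [hr, if_neg (hT0 k hk).1]
  calc μ {ω | 9 * s + 9 ≤
          ((cub R).filter fun k => near (rlam σ e Z ω) 1 τ k (-(k + m)) m ≠ 0).card}
      ≤ μ (⋃ T ∈ G, {ω | ∀ k ∈ T, near (rlam σ e Z ω) 1 τ k (-(k + m)) m ≠ 0}) := measure_mono hsub
    _ ≤ ∑ T ∈ G, μ {ω | ∀ k ∈ T, near (rlam σ e Z ω) 1 τ k (-(k + m)) m ≠ 0} :=
        measure_biUnion_finset_le _ _
    _ ≤ ∑ T ∈ G, ENNReal.ofReal (∏ k ∈ T, r k) := Finset.sum_le_sum hE
    _ ≤ ∑ T ∈ (cub R).powersetCard s, ENNReal.ofReal (∏ k ∈ T, r k) :=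
        Finset.sum_le_sum_of_subset (Finset.filter_subset _ _)
    _ = ENNReal.ofReal (∑ T ∈ (cub R).powersetCard s, ∏ k ∈ T, r k) := by
        rw [ENNReal.ofReal_sum_of_nonneg]
        exact fun T _ => Finset.prod_nonneg fun k _ => hr0 k
    _ ≤ _ := ENNReal.ofReal_le_ofReal (hESY (cub R) r hr0 s)

end Pool.Agent.U394.DS
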